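import Pool.Agent.Lib.MP_9f2731_nt.PL.Lb.Spec

/-!
MP_9f2731_nt, directory PL, chapter Lb, module Lba: the asymptotic estimates.
-/

namespace Pool.Agent.Lib.MP_9f2731_nt.PL.Lb

open Finset
open Pool.Agent.Lib.SG (MrtStmt GcrStmt GadStmt)

/-- log L ^ k is small compared with L = log log x -/
private lemma Lba_loglog (k : ℕ) (A : ℝ) (hA : 0 < A) :
    ∀ᶠ x : ℝ in Filter.atTop,
      A * (Real.log (Real.log (Real.log x))) ^ k ≤ Real.log (Real.log x) / 2 := by
  have hLL : Filter.Tendsto (fun x : ℝ => Real.log (Real.log x)) Filter.atTop Filter.atTop :=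
    Real.tendsto_log_atTop.comp Real.tendsto_log_atTop
  have h1 := (Real.isLittleO_pow_log_id_atTop (n := k)).bound
    (show (0 : ℝ) < 1 / (2 * A) by positivity)
  have h2 := hLL.eventually h1
  have h3 := hLL.eventually_ge_atTop 1
  filter_upwards [h2, h3] with x hx hx1
  simp only [id, Real.norm_eq_abs] at hx
  rw [abs_of_nonneg (by linarith : (0 : ℝ) ≤ Real.log (Real.log x))] at hx
  have h4 := le_trans (le_abs_self _) hx
  calc A * (Real.log (Real.log (Real.log x))) ^ k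
      ≤ A * (1 / (2 * A) * Real.log (Real.log x)) := mul_le_mul_of_nonneg_left h4 hA.le
    _ = Real.log (Real.log x) / 2 := by field_simp

/-- a power of log x is small compared with the square root of x -/
private lemma Lba_logpow (k : ℕ) :
    ∀ᶠ x : ℝ in Filter.atTop, 4 * (Real.log x) ^ k ≤ x ^ ((1 : ℝ) / 2) := by
  have h1 := (isLittleO_log_rpow_rpow_atTop (k : ℝ) (show (0 : ℝ) < 1 / 2 by norm_num)).bound
    (show (0 : ℝ) < 1 / 4 by norm_num)
  filter_upwards [h1, Filter.eventually_ge_atTop (1 : ℝ)] with x hx hx1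
  have hlog : 0 ≤ Real.log x := Real.log_nonneg hx1
  rw [Real.rpow_natCast, Real.norm_of_nonneg (pow_nonneg hlog k),
    Real.norm_of_nonneg (Real.rpow_nonneg (by linarith) _)] at hx
  linarith

theorem pLba : LbaStmt := by
  intro k ps E C hE hC
  have hE0 : (0 : ℝ) < E := by exact_mod_cast (by omega : 0 < E)
  have hLL : Filter.Tendsto (fun x : ℝ => Real.log (Real.log x)) Filter.atTop Filter.atTop :=
    Real.tendsto_log_atTop.comp Real.tendsto_log_atTop
  have e1 : ∀ᶠ x : ℝ in Filter.atTop, (ps : ℝ) + 1 ≤ x ^ ((1 : ℝ) / (2 * E)) :=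
    (tendsto_rpow_atTop (by positivity)).eventually_ge_atTop _
  have e2 : ∀ᶠ x : ℝ in Filter.atTop, (2 : ℝ) ≤ x ^ ((1 : ℝ) / (4 * E)) :=
    (tendsto_rpow_atTop (by positivity)).eventually_ge_atTop _
  have e3 := Lba_loglog k (C * (48 * E) ^ k) (by positivity)
  have e4 := Lba_logpow k
  have e5 : ∀ᶠ x : ℝ in Filter.atTop, 5 + (k : ℝ) ^ 2 ≤ Real.log (Real.log x) :=
    hLL.eventually_ge_atTop _
  have e6 : ∀ᶠ x : ℝ in Filter.atTop, 1 ≤ Real.log x :=
    Real.tendsto_log_atTop.eventually_ge_atTop _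
  obtain ⟨X0, hall⟩ := Filter.eventually_atTop.1
    (e1.and (e2.and (e3.and (e4.and (e5.and e6)))))
  refine ⟨max X0 16, le_max_right _ _, fun X l hX hl0 hl => ?_⟩
  obtain ⟨h1, h2, h3, h4, h5, h6⟩ := hall X (le_trans (le_max_left _ _) hX)
  have hx16 : (16 : ℝ) ≤ X := le_trans (le_max_right _ _) hX
  have hx0 : (0 : ℝ) < X := by linarith
  set x : ℝ := (X : ℝ) with hxdef
  set L : ℝ := Real.log x with hL
  set M : ℝ := Real.log L with hM
  set y : ℕ := ⌊x ^ ((1 : ℝ) / (2 * E))⌋₊ with hy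
  have hrp0 : 0 ≤ x ^ ((1 : ℝ) / (2 * E)) := Real.rpow_nonneg hx0.le _
  have hps : ps + 1 ≤ y := by
    rw [hy]
    refine Nat.le_floor ?_
    push_cast
    exact h1
  have hy1 : (1 : ℝ) ≤ (y : ℝ) := by exact_mod_cast (by omega : 1 ≤ y)
  have hyle : (y : ℝ) ≤ x ^ ((1 : ℝ) / (2 * E)) := Nat.floor_le hrp0
  have hyE : (y : ℝ) ^ E ≤ x ^ ((1 : ℝ) / 2) := by
    calc (y : ℝ) ^ E ≤ (x ^ ((1 : ℝ) / (2 * E))) ^ E :=
          pow_le_pow_left₀ (by linarith) hyle E
      _ = x ^ ((1 : ℝ) / 2) := by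
          rw [← Real.rpow_natCast, ← Real.rpow_mul hx0.le]
          congr 1
          field_simp
  have hyy : (y : ℝ) ≤ x ^ ((1 : ℝ) / 2) :=
    le_trans (le_self_pow₀ hy1 (by omega)) hyE
  have hlogy : L / (4 * E) ≤ Real.log (y : ℝ) := by
    have ht : (x ^ ((1 : ℝ) / (4 * E))) ^ 2 = x ^ ((1 : ℝ) / (2 * E)) := by
      rw [← Real.rpow_natCast, ← Real.rpow_mul hx0.le]
      congr 1
      push_cast
      field_simp
      norm_num
    have hlt : x ^ ((1 : ℝ) / (2 * E)) < (y : ℝ) + 1 := Nat.lt_floor_add_one _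
    have hty : x ^ ((1 : ℝ) / (4 * E)) ≤ (y : ℝ) := by
      rw [← ht] at hlt
      nlinarith
    calc L / (4 * E) = Real.log (x ^ ((1 : ℝ) / (4 * E))) := by
          rw [Real.log_rpow hx0]
          ring
      _ ≤ Real.log (y : ℝ) := Real.log_le_log (by positivity) hty
  have hM1 : 1 ≤ M := by nlinarith [sq_nonneg (k : ℝ)]
  have hlogM : 0 ≤ Real.log M := Real.log_nonneg hM1
  have hlogl : Real.log (3 + l) ≤ 12 * Real.log M := by
    have hM10 : 1 ≤ M ^ 10 := one_le_pow₀ hM1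
    have hle : 3 + l ≤ M ^ 11 := by
      calc 3 + l ≤ 3 * M ^ 10 + (2 + (k : ℝ) ^ 2) * M ^ 10 := by linarith
        _ = (5 + (k : ℝ) ^ 2) * M ^ 10 := by ring
        _ ≤ M * M ^ 10 := mul_le_mul_of_nonneg_right h5 (by linarith)
        _ = M ^ 11 := by ring
    calc Real.log (3 + l) ≤ Real.log (M ^ 11) := Real.log_le_log (by linarith) hle
      _ = 11 * Real.log M := by rw [Real.log_pow]; norm_num
      _ ≤ 12 * Real.log M := by linarith
  have hlog3 : 0 ≤ Real.log (3 + l) := Real.log_nonneg (by linarith)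
  have hL0 : 0 < L := by linarith
  have hratio : Real.log (3 + l) / Real.log (y : ℝ) ≤ 48 * E * Real.log M / L := by
    have h4E : 0 < L / (4 * E) := by positivity
    calc Real.log (3 + l) / Real.log (y : ℝ)
        ≤ (12 * Real.log M) / (L / (4 * E)) :=
          div_le_div₀ (by positivity) hlogl h4E hlogy
      _ = 48 * E * Real.log M / L := by
          field_simp
          ring
  have hratio0 : 0 ≤ Real.log (3 + l) / Real.log (y : ℝ) :=
    div_nonneg hlog3 (Real.log_nonneg hy1)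
  have hLk : 0 < L ^ k := by positivity
  have hmain : C * (x * (Real.log (3 + l) / Real.log (y : ℝ)) ^ k) ≤ x * (M / 2) / L ^ k := by
    calc C * (x * (Real.log (3 + l) / Real.log (y : ℝ)) ^ k)
        ≤ C * (x * (48 * E * Real.log M / L) ^ k) := by
          refine mul_le_mul_of_nonneg_left ?_ hC.le
          refine mul_le_mul_of_nonneg_left ?_ hx0.le
          exact pow_le_pow_left₀ hratio0 hratio k
      _ = x * (C * (48 * E) ^ k * Real.log M ^ k) / L ^ k := by
          rw [div_pow, mul_pow]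
          ring
      _ ≤ x * (M / 2) / L ^ k := by
          refine div_le_div_of_nonneg_right ?_ hLk.le
          exact mul_le_mul_of_nonneg_left h3 hx0.le
  have hsqrt : (y : ℝ) ^ E + (y : ℝ) ≤ x * (M / 2) / L ^ k := by
    have hs0 : 0 < x ^ ((1 : ℝ) / 2) := by positivity
    have hss : x ^ ((1 : ℝ) / 2) * x ^ ((1 : ℝ) / 2) = x := by
      rw [← Real.rpow_add hx0]
      norm_num
    have h5' : 2 * x ^ ((1 : ℝ) / 2) ≤ x * (M / 2) / L ^ k := by
      rw [le_div_iff₀ hLk]
      have h7 : x ^ ((1 : ℝ) / 2) * (4 * L ^ k) ≤ x ^ ((1 : ℝ) / 2) * x ^ ((1 : ℝ) / 2) :=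
        mul_le_mul_of_nonneg_left h4 hs0.le
      rw [hss] at h7
      nlinarith
    linarith
  refine ⟨by omega, ?_⟩
  have hfin : x * (M / 2) / L ^ k + x * (M / 2) / L ^ k = x * M / L ^ k := by ring
  linarith

end Pool.Agent.Lib.MP_9f2731_nt.PL.Lb
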