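import Pool.Agent.Lib.MP_9f2731_nt.PL.Lb.Spec

/-! PL, chapter Lb: one ratio. -/

namespace Pool.Agent.Lib.MP_9f2731_nt.PL.Lb

open Finset
open Pool.Agent.Lib.SG (MrtStmt GcrStmt GadStmt)

namespace LbkAux

theorem Dk_pos (k Q r : ℕ) (hQ : 1 ≤ Q) (hr : 2 ≤ r) : 1 ≤ Dk k Q r := by
  unfold Dk
  have h1 : 0 < ∏ j ∈ Icc 1 (k - 1), (r ^ j - 1) := by
    apply Finset.prod_pos
    intro j hj
    have hj1 : 1 ≤ j := (Finset.mem_Icc.mp hj).1
    have : 2 ≤ r ^ j := le_trans hr (Nat.le_self_pow (by omega) r)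
    omega
  have h2 : 0 < Q * r := by positivity
  exact Nat.mul_pos h2 h1

theorem sum_le (k : ℕ) : ∑ j ∈ Icc 1 (k - 1), j ≤ k ^ 2 := by
  calc ∑ j ∈ Icc 1 (k - 1), j ≤ ∑ _j ∈ Icc 1 (k - 1), k := by
        apply Finset.sum_le_sum
        intro j hj
        have := (Finset.mem_Icc.mp hj).2
        omega
    _ = (k - 1) * k := by
        rw [Finset.sum_const, Nat.card_Icc, smul_eq_mul]
        congr 1
    _ ≤ k ^ 2 := by
        rw [pow_two]
        exact Nat.mul_le_mul_right _ (Nat.sub_le _ _)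

theorem Dk_le (k Q r : ℕ) (hr : 2 ≤ r) : Dk k Q r ≤ Q * r * r ^ (k ^ 2) := by
  unfold Dk
  apply Nat.mul_le_mul_left
  calc ∏ j ∈ Icc 1 (k - 1), (r ^ j - 1) ≤ ∏ j ∈ Icc 1 (k - 1), r ^ j := by
        apply Finset.prod_le_prod'
        intro j _
        exact Nat.sub_le _ _
    _ = r ^ ∑ j ∈ Icc 1 (k - 1), j := by rw [Finset.prod_pow_eq_pow_sum]
    _ ≤ r ^ (k ^ 2) := Nat.pow_le_pow_right (by omega) (sum_le k)

theorem log_Dk (k Q r : ℕ) (hQ : 1 ≤ Q) (hr : 2 ≤ r) (M : ℝ) (h1 : Real.log Q ≤ M)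
    (h2 : Real.log r ≤ M) : Real.log (Dk k Q r) ≤ (2 + (k : ℝ) ^ 2) * M := by
  have hQ' : (Q : ℝ) ≠ 0 := by
    have : Q ≠ 0 := by omega
    exact_mod_cast this
  have hr' : (r : ℝ) ≠ 0 := by
    have : r ≠ 0 := by omega
    exact_mod_cast this
  have h3 : (Dk k Q r : ℝ) ≤ (Q : ℝ) * r * (r : ℝ) ^ (k ^ 2) := by
    exact_mod_cast Dk_le k Q r hr
  have h4 : (0 : ℝ) < Dk k Q r := by
    exact_mod_cast Dk_pos k Q r hQ hr
  have h5 := Real.log_le_log h4 h3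
  rw [Real.log_mul (mul_ne_zero hQ' hr') (pow_ne_zero _ hr'), Real.log_mul hQ' hr',
    Real.log_pow] at h5
  push_cast at h5
  have h6 : (k : ℝ) ^ 2 * Real.log r ≤ (k : ℝ) ^ 2 * M :=
    mul_le_mul_of_nonneg_left h2 (by positivity)
  linarith

end LbkAux

open Classical in
theorem pLbk (h1 : GskStmt) (h2 : PmkStmt) (h3 : RskStmt) (h4 : LbaStmt) : LbkStmt := by
  intro k hk
  obtain ⟨C1, ps, E, hC1, hps16, hps4, hE, hG⟩ := h1 k hk
  obtain ⟨C2, hC2, hP⟩ := h2 k ps (by omega) (by omega)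
  obtain ⟨X0, hX16, hL⟩ := h4 k ps E (C1 * C2) hE (by positivity)
  refine ⟨X0, ?_⟩
  intro X Q r hX hQ hr hlQ hlr
  have hD := LbkAux.Dk_pos k Q r hQ hr
  have hl0 : 0 ≤ Real.log (Dk k Q r) := Real.log_nonneg (by exact_mod_cast hD)
  obtain ⟨hy, hfin⟩ := hL X (Real.log (Dk k Q r)) hX hl0 (LbkAux.log_Dk k Q r hQ hr _ hlQ hlr)
  set y : ℕ := ⌊(X : ℝ) ^ ((1 : ℝ) / (2 * E))⌋₊ with hydef
  set T : Finset ℕ := (Ioc ps y).filter (fun p => p.Prime ∧ ¬ p ∣ Dk k Q r) with hT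
  have hcardR : ∀ p ∈ T, (rsk k Q r p).card = k := by
    intro p hp
    rw [hT, Finset.mem_filter] at hp
    exact h3 k Q r p hr hp.2.1 hp.2.2
  have hGs := hG y T (rsk k Q r) 0 X (Nat.zero_le X) (by
    intro p hp
    have hp' := hp
    rw [hT, Finset.mem_filter, Finset.mem_Ioc] at hp'
    exact ⟨hp'.2.1, hp'.1.1, hp'.1.2, Finset.filter_subset _ _, (hcardR p hp).le⟩)
  have hprod : ∏ p ∈ T, (1 - (((rsk k Q r p).card : ℕ) : ℝ) / p) ≤
      C2 * (Real.log (3 + Real.log (Dk k Q r)) / Real.log y) ^ k := by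
    have e1 : ∏ p ∈ T, (1 - (((rsk k Q r p).card : ℕ) : ℝ) / p) = ∏ p ∈ T, (1 - (k : ℝ) / p) := by
      apply Finset.prod_congr rfl
      intro p hp
      rw [hcardR p hp]
    rw [e1]
    exact hP y (Dk k Q r) hy hD
  set S : Finset ℕ := (Icc 1 X).filter (fun b => ∀ i : ℕ, i < k → (Q * b * r ^ i + 1).Prime) with hS
  set U : Finset ℕ := (Ioc 0 X).filter (fun n => ∀ p ∈ T, n % p ∉ rsk k Q r p) with hU
  have hsub : S ⊆ Icc 1 y ∪ U := by
    intro b hb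
    rw [hS, Finset.mem_filter, Finset.mem_Icc] at hb
    rw [Finset.mem_union]
    by_cases hby : b ≤ y
    · left
      exact Finset.mem_Icc.mpr ⟨hb.1.1, hby⟩
    · right
      rw [hU, Finset.mem_filter, Finset.mem_Ioc]
      refine ⟨⟨by omega, hb.1.2⟩, ?_⟩
      intro p hp hmem
      have hp' := hp
      rw [hT, Finset.mem_filter, Finset.mem_Ioc] at hp'
      unfold rsk at hmem
      rw [Finset.mem_filter] at hmem
      obtain ⟨_, i, hi, hdvd⟩ := hmem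
      have hi' : i < k := Finset.mem_range.mp hi
      have hdvd2 : p ∣ Q * b * r ^ i + 1 := by
        have e : Q * (b % p) * r ^ i + 1 ≡ Q * b * r ^ i + 1 [MOD p] := by
          exact Nat.ModEq.add_right _ (Nat.ModEq.mul_right _ (Nat.ModEq.mul_left _ (Nat.mod_modEq b p)))
        exact (Nat.ModEq.dvd_iff e (dvd_refl p)).mp hdvd
      have hpr := hb.2 i hi'
      have heq : p = Q * b * r ^ i + 1 := (Nat.prime_dvd_prime_iff_eq hp'.2.1 hpr).mp hdvd2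
      have hge : b ≤ Q * b * r ^ i := by
        have hr1 : 1 ≤ r ^ i := Nat.one_le_pow _ _ (by omega)
        calc b = 1 * b * 1 := by ring
          _ ≤ Q * b * r ^ i := Nat.mul_le_mul (Nat.mul_le_mul_right _ hQ) hr1
      have := hp'.1.2
      omega
  have hcard : (S.card : ℝ) ≤ y + U.card := by
    have h5 := Finset.card_le_card hsub
    have h6 := Finset.card_union_le (Icc 1 y) U
    rw [Nat.card_Icc] at h6
    have h7 : S.card ≤ y + U.card := by omega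
    exact_mod_cast h7
  have hUc : (U.card : ℝ) ≤ C1 * (((X : ℝ) - ((0 : ℕ) : ℝ)) *
      ∏ p ∈ T, (1 - (((rsk k Q r p).card : ℕ) : ℝ) / p)) + (y : ℝ) ^ E := hGs
  rw [Nat.cast_zero, sub_zero] at hUc
  have hX0 : (0 : ℝ) ≤ X := Nat.cast_nonneg X
  have hbig : C1 * ((X : ℝ) * ∏ p ∈ T, (1 - (((rsk k Q r p).card : ℕ) : ℝ) / p)) ≤
      C1 * ((X : ℝ) * (C2 * (Real.log (3 + Real.log (Dk k Q r)) / Real.log y) ^ k)) := by
    apply mul_le_mul_of_nonneg_left _ (by linarith)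
    exact mul_le_mul_of_nonneg_left hprod hX0
  calc (S.card : ℝ) ≤ y + U.card := hcard
    _ ≤ y + (C1 * ((X : ℝ) * (C2 * (Real.log (3 + Real.log (Dk k Q r)) / Real.log y) ^ k)) +
        (y : ℝ) ^ E) := by linarith
    _ = C1 * C2 * (X * (Real.log (3 + Real.log (Dk k Q r)) / Real.log y) ^ k) +
        (y : ℝ) ^ E + (y : ℝ) := by ring
    _ ≤ _ := hfin

end Pool.Agent.Lib.MP_9f2731_nt.PL.Lb
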