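import Pool.Agent.Lib.MP_9f2731_nt.PL.Lb.Spec

/-!
MP_9f2731_nt, directory PL, chapter Lb, module Lbp: the union over all ratios.
-/

namespace Pool.Agent.Lib.MP_9f2731_nt.PL.Lb

open Finset
open Pool.Agent.Lib.SG (MrtStmt GcrStmt GadStmt)

private theorem Lbp_log {ε η : ℝ} (hε : 0 < ε) (hη : 0 < η) :
    ∃ Y0 : ℝ, ∀ Y : ℝ, Y0 ≤ Y → Real.log Y ≤ η * Y ^ ε := by
  have h := (isLittleO_log_rpow_atTop hε).bound hη
  obtain ⟨Y0, hY0⟩ := Filter.eventually_atTop.mp h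
  refine ⟨max Y0 1, fun Y hY => ?_⟩
  have h2 := hY0 Y (le_trans (le_max_left _ _) hY)
  have h3 : (0 : ℝ) ≤ Y := le_trans zero_le_one (le_trans (le_max_right _ _) hY)
  rw [Real.norm_eq_abs, Real.norm_eq_abs, abs_of_nonneg (Real.rpow_nonneg h3 ε)] at h2
  exact (le_abs_self _).trans h2

open Classical in
private theorem Lbp_zero (k : ℕ) (ε η : ℝ) (hε : 0 < ε) (hη : 0 < η) (hk : k = 0) :
    ∀ X Q : ℕ, Real.exp 1 ≤ X →
    (((Icc 1 X).filter (fun b => ∃ r : ℕ, 2 ≤ r ∧ (r : ℝ) ≤ (Real.log X) ^ ((k : ℝ) - 1 - ε) ∧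
      ∀ i : ℕ, i < k → (Q * b * r ^ i + 1).Prime)).card : ℝ) ≤ η * (X / Real.log X) := by
  intro X Q hX
  have hlog : 1 ≤ Real.log X := by
    rw [Real.le_log_iff_exp_le (lt_of_lt_of_le (Real.exp_pos 1) hX)]
    exact hX
  have he : (Icc 1 X).filter (fun b => ∃ r : ℕ, 2 ≤ r ∧
      (r : ℝ) ≤ (Real.log X) ^ ((k : ℝ) - 1 - ε) ∧
      ∀ i : ℕ, i < k → (Q * b * r ^ i + 1).Prime) = ∅ := by
    refine Finset.filter_eq_empty_iff.mpr (fun b _ h => ?_)
    obtain ⟨r, hr, hr2, -⟩ := h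
    have h1 : (Real.log X) ^ ((k : ℝ) - 1 - ε) ≤ 1 := by
      refine Real.rpow_le_one_of_one_le_of_nonpos hlog ?_
      rw [hk]
      push_cast
      linarith
    have h2 : (2 : ℝ) ≤ r := by exact_mod_cast hr
    linarith
  rw [he, Finset.card_empty, Nat.cast_zero]
  have h3 : (0 : ℝ) ≤ X := le_trans (Real.exp_pos 1).le hX
  positivity

open Classical in
private theorem Lbp_union (k X Q : ℕ) (e B : ℝ) (hX : 0 ≤ Real.log (X : ℝ)) (hB : 0 ≤ B)
    (h : ∀ r : ℕ, 2 ≤ r → (r : ℝ) ≤ (Real.log X) ^ e →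
      (((Icc 1 X).filter (fun b => ∀ i : ℕ, i < k → (Q * b * r ^ i + 1).Prime)).card : ℝ) ≤ B) :
    (((Icc 1 X).filter (fun b => ∃ r : ℕ, 2 ≤ r ∧ (r : ℝ) ≤ (Real.log X) ^ e ∧
      ∀ i : ℕ, i < k → (Q * b * r ^ i + 1).Prime)).card : ℝ) ≤ (Real.log X) ^ e * B := by
  set R : ℕ := ⌊(Real.log X) ^ e⌋₊ with hR
  have hpos : 0 ≤ (Real.log X) ^ e := Real.rpow_nonneg hX e
  have hsub : (Icc 1 X).filter (fun b => ∃ r : ℕ, 2 ≤ r ∧ (r : ℝ) ≤ (Real.log X) ^ e ∧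
      ∀ i : ℕ, i < k → (Q * b * r ^ i + 1).Prime) ⊆
      (Icc 2 R).biUnion (fun r => (Icc 1 X).filter
        (fun b => ∀ i : ℕ, i < k → (Q * b * r ^ i + 1).Prime)) := by
    intro b hb
    obtain ⟨hb1, r, hr, hr2, hr3⟩ := mem_filter.mp hb
    exact mem_biUnion.mpr ⟨r, mem_Icc.mpr ⟨hr, Nat.le_floor hr2⟩, mem_filter.mpr ⟨hb1, hr3⟩⟩
  have h1 : (((Icc 1 X).filter (fun b => ∃ r : ℕ, 2 ≤ r ∧ (r : ℝ) ≤ (Real.log X) ^ e ∧
      ∀ i : ℕ, i < k → (Q * b * r ^ i + 1).Prime)).card : ℝ) ≤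
      ∑ r ∈ Icc 2 R, (((Icc 1 X).filter
        (fun b => ∀ i : ℕ, i < k → (Q * b * r ^ i + 1).Prime)).card : ℝ) := by
    have h2 := (card_le_card hsub).trans card_biUnion_le
    exact_mod_cast h2
  refine h1.trans ?_
  have h3 : ∑ r ∈ Icc 2 R, (((Icc 1 X).filter
        (fun b => ∀ i : ℕ, i < k → (Q * b * r ^ i + 1).Prime)).card : ℝ) ≤
      ∑ _r ∈ Icc 2 R, B := by
    refine sum_le_sum (fun r hr => ?_)
    obtain ⟨hr1, hr2⟩ := mem_Icc.mp hr
    exact h r hr1 ((Nat.cast_le.mpr hr2).trans (Nat.floor_le hpos))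
  refine h3.trans ?_
  rw [sum_const, nsmul_eq_mul]
  refine mul_le_mul_of_nonneg_right ?_ hB
  refine le_trans ?_ (Nat.floor_le hpos)
  rw [← hR]
  have h4 : (Icc 2 R).card ≤ R := by
    rw [Nat.card_Icc]
    omega
  exact_mod_cast h4

theorem pLbp (h1 : LbkStmt) : LbpStmt := by
  intro k ε η hε hη
  by_cases hk : k = 0
  · exact ⟨Real.exp 1, fun X Q hX _ _ => Lbp_zero k ε η hε hη hk X Q hX⟩
  · obtain ⟨X1, hX1⟩ := h1 k (Nat.one_le_iff_ne_zero.mpr hk)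
    obtain ⟨Y0, hY0⟩ := Lbp_log hε hη
    refine ⟨max X1 (max (Real.exp Y0) (Real.exp (Real.exp (k + 1)))), ?_⟩
    intro X Q hX hQ hlogQ
    have hXa : X1 ≤ (X : ℝ) := le_trans (le_max_left _ _) hX
    have hXb : Real.exp Y0 ≤ (X : ℝ) :=
      le_trans (le_max_left _ _) (le_trans (le_max_right _ _) hX)
    have hXc : Real.exp (Real.exp (k + 1)) ≤ (X : ℝ) :=
      le_trans (le_max_right _ _) (le_trans (le_max_right _ _) hX)
    have hXpos : (0 : ℝ) < X := lt_of_lt_of_le (Real.exp_pos _) hXb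
    have hY : Y0 ≤ Real.log X := (Real.le_log_iff_exp_le hXpos).mpr hXb
    have hE : Real.exp (k + 1) ≤ Real.log X := (Real.le_log_iff_exp_le hXpos).mpr hXc
    have hlpos : 0 < Real.log X := lt_of_lt_of_le (Real.exp_pos _) hE
    have hL : (k : ℝ) + 1 ≤ Real.log (Real.log X) := (Real.le_log_iff_exp_le hlpos).mpr hE
    have hk0 : (0 : ℝ) ≤ (k : ℝ) := Nat.cast_nonneg k
    have hL1 : 1 ≤ Real.log (Real.log X) := by linarith
    have hL0 : 0 ≤ Real.log (Real.log X) := by linarith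
    have hB : 0 ≤ X * Real.log (Real.log X) / (Real.log X) ^ k := by positivity
    have hu := Lbp_union k X Q ((k : ℝ) - 1 - ε) _ hlpos.le hB (by
      intro r hr hr2
      refine hX1 X Q r hXa hQ hr hlogQ ?_
      have hr0 : (0 : ℝ) < r := by
        have : (2 : ℝ) ≤ r := by exact_mod_cast hr
        linarith
      have h2 : Real.log r ≤ ((k : ℝ) - 1 - ε) * Real.log (Real.log X) := by
        have h3 := Real.log_le_log hr0 hr2
        rwa [Real.log_rpow hlpos] at h3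
      have h4 : ((k : ℝ) - 1 - ε) * Real.log (Real.log X) ≤
          Real.log (Real.log X) * Real.log (Real.log X) :=
        mul_le_mul_of_nonneg_right (by linarith) hL0
      have h5 : Real.log (Real.log X) * Real.log (Real.log X) ≤
          (Real.log (Real.log X)) ^ 10 := by
        rw [← pow_two]
        exact pow_le_pow_right₀ hL1 (by norm_num)
      linarith)
    refine hu.trans ?_
    have h6 := hY0 _ hY
    have h7 : (Real.log X) ^ ((k : ℝ) - 1 - ε) * (X * Real.log (Real.log X) / (Real.log X) ^ k) =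
        (X / Real.log X) * (Real.log (Real.log X) / (Real.log X) ^ ε) := by
      rw [Real.rpow_sub hlpos, Real.rpow_sub hlpos, Real.rpow_one, Real.rpow_natCast]
      have hε0 : (Real.log X) ^ ε ≠ 0 := (Real.rpow_pos_of_pos hlpos ε).ne'
      field_simp
    rw [h7, mul_comm η]
    refine mul_le_mul_of_nonneg_left ?_ (by positivity)
    rw [div_le_iff₀ (Real.rpow_pos_of_pos hlpos ε)]
    exact h6

end Pool.Agent.Lib.MP_9f2731_nt.PL.Lb
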