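import Pool.Agent.Lib.MP_9f2731_nt.PL.Lb.Spec

/-! MP_9f2731_nt, directory PL, chapter Lb, module Pdk: the sum of 1/p over the prime divisors. -/

namespace Pool.Agent.Lib.MP_9f2731_nt.PL.Lb

open Finset
open Pool.Agent.Lib.SG (MrtStmt GcrStmt GadStmt)

private theorem Pdk_loglog2 : -1 ≤ Real.log (Real.log 2) := by
  have h1 : Real.exp (-1) ≤ Real.log 2 := by
    have h2 := Real.exp_neg_one_lt_d9
    have h3 := Real.log_two_gt_d9
    linarith
  have h4 : 0 < Real.log 2 := Real.log_pos (by norm_num)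
  exact (Real.le_log_iff_exp_le h4).2 h1

private theorem Pdk_card (D : ℕ) (hD : 1 ≤ D) :
    (D.primeFactors.card : ℝ) ≤ 2 * Real.log D := by
  have h1 : 2 ^ D.primeFactors.card ≤ D := by
    have h2 : 2 ^ D.primeFactors.card ≤ ∏ p ∈ D.primeFactors, p := by
      refine Finset.pow_card_le_prod _ _ _ fun p hp => ?_
      exact (Nat.prime_of_mem_primeFactors hp).two_le
    exact h2.trans (Nat.le_of_dvd (by omega) (Nat.prod_primeFactors_dvd D))
  have h3 : ((2 : ℝ)) ^ D.primeFactors.card ≤ (D : ℝ) := by exact_mod_cast h1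
  have h4 : (D.primeFactors.card : ℝ) * Real.log 2 ≤ Real.log D := by
    rw [← Real.log_pow]
    exact Real.log_le_log (by positivity) h3
  have h5 : (1 / 2 : ℝ) ≤ Real.log 2 := by
    have := Real.log_two_gt_d9
    linarith
  have h6 : (0 : ℝ) ≤ (D.primeFactors.card : ℝ) := Nat.cast_nonneg _
  nlinarith

theorem pPdk (h1 : MrtStmt) : PdkStmt := by
  obtain ⟨C, hC, hM⟩ := h1
  refine ⟨2 * C + 4, by positivity, fun D hD => ?_⟩
  have hlD : 0 ≤ Real.log D := Real.log_natCast_nonneg D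
  obtain ⟨z, hz⟩ : ∃ z : ℝ, z = 3 + Real.log D := ⟨_, rfl⟩
  rw [← hz]
  have hz3 : 3 ≤ z := by linarith
  have hM2 := hM 2 z le_rfl (by linarith)
  rw [Nat.floor_ofNat] at hM2
  have hM3 := (abs_le.1 hM2).2
  have hl2 : (1 / 2 : ℝ) ≤ Real.log 2 := by
    have := Real.log_two_gt_d9
    linarith
  have hlz : 0 < Real.log z := Real.log_pos (by linarith)
  have hC2 : C / Real.log 2 ≤ 2 * C := by
    rw [div_le_iff₀ (by linarith)]
    nlinarith
  have hlog : Real.log (Real.log z / Real.log 2) ≤ Real.log (Real.log z) + 1 := by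
    rw [Real.log_div hlz.ne' (by linarith)]
    have := Pdk_loglog2
    linarith
  have hsplit : ∑ p ∈ D.primeFactors, 1 / (p : ℝ) =
      ∑ p ∈ D.primeFactors.filter (fun p => p ≤ ⌊z⌋₊), 1 / (p : ℝ) +
      ∑ p ∈ D.primeFactors.filter (fun p => ¬ p ≤ ⌊z⌋₊), 1 / (p : ℝ) :=
    (sum_filter_add_sum_filter_not _ _ _).symm
  have hsmall : ∑ p ∈ D.primeFactors.filter (fun p => p ≤ ⌊z⌋₊), 1 / (p : ℝ) ≤
      1 / 2 + ∑ p ∈ (Ioc 2 ⌊z⌋₊).filter Nat.Prime, 1 / (p : ℝ) := by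
    have h2 : (2 : ℕ) ∉ (Ioc 2 ⌊z⌋₊).filter Nat.Prime := by simp
    have h3 : (1 / 2 : ℝ) + ∑ p ∈ (Ioc 2 ⌊z⌋₊).filter Nat.Prime, 1 / (p : ℝ) =
        ∑ p ∈ insert 2 ((Ioc 2 ⌊z⌋₊).filter Nat.Prime), 1 / (p : ℝ) := by
      rw [sum_insert h2]
      norm_num
    rw [h3]
    refine sum_le_sum_of_subset_of_nonneg ?_ fun p _ _ => by positivity
    intro p hp
    obtain ⟨hp1, hp2⟩ := mem_filter.1 hp
    have hpp := Nat.prime_of_mem_primeFactors hp1
    rw [mem_insert, mem_filter, mem_Ioc]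
    by_cases h : p = 2
    · exact Or.inl h
    · have := hpp.two_le
      exact Or.inr ⟨⟨by omega, hp2⟩, hpp⟩
  have hlarge : ∑ p ∈ D.primeFactors.filter (fun p => ¬ p ≤ ⌊z⌋₊), 1 / (p : ℝ) ≤ 2 := by
    have h2 : ∀ p ∈ D.primeFactors.filter (fun p => ¬ p ≤ ⌊z⌋₊), 1 / (p : ℝ) ≤ 1 / z := by
      intro p hp
      have hp2 := (mem_filter.1 hp).2
      apply one_div_le_one_div_of_le (by linarith)
      exact ((Nat.floor_lt (by linarith)).1 (not_le.1 hp2)).le
    refine (sum_le_sum h2).trans ?_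
    rw [sum_const, nsmul_eq_mul, mul_one_div, div_le_iff₀ (by linarith)]
    have h3 : ((D.primeFactors.filter (fun p => ¬ p ≤ ⌊z⌋₊)).card : ℝ) ≤
        (D.primeFactors.card : ℝ) := by
      exact_mod_cast card_filter_le _ _
    have h4 := Pdk_card D hD
    linarith
  rw [hsplit]
  linarith

end Pool.Agent.Lib.MP_9f2731_nt.PL.Lb
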