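import Pool.Agent.Lib.MP_9f2731_nt.PL.Lb.Spec

/-! MP_9f2731_nt, directory PL, chapter Lb, module Pmk: the sieve product. -/

namespace Pool.Agent.Lib.MP_9f2731_nt.PL.Lb

open Finset
open Pool.Agent.Lib.SG (MrtStmt GcrStmt GadStmt)

/-- the sum over the primes which do not divide D -/
private theorem Pmk_split (ps y D : ℕ) (hD : 1 ≤ D) :
    ∑ p ∈ (Ioc ps y).filter Nat.Prime, 1 / (p : ℝ) ≤
      ∑ p ∈ (Ioc ps y).filter (fun p => p.Prime ∧ ¬ p ∣ D), 1 / (p : ℝ) +
      ∑ p ∈ D.primeFactors, 1 / (p : ℝ) := by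
  have h1 : (Ioc ps y).filter Nat.Prime ⊆
      (Ioc ps y).filter (fun p => p.Prime ∧ ¬ p ∣ D) ∪ D.primeFactors := by
    intro p hp
    obtain ⟨hp1, hp2⟩ := mem_filter.1 hp
    rw [mem_union]
    by_cases h : p ∣ D
    · exact Or.inr (Nat.mem_primeFactors.2 ⟨hp2, h, by omega⟩)
    · exact Or.inl (mem_filter.2 ⟨hp1, hp2, h⟩)
  refine (sum_le_sum_of_subset_of_nonneg h1 fun p _ _ => by positivity).trans ?_
  have h2 := sum_union_inter (s₁ := (Ioc ps y).filter (fun p => p.Prime ∧ ¬ p ∣ D))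
    (s₂ := D.primeFactors) (f := fun p : ℕ => 1 / (p : ℝ))
  have h3 : 0 ≤ ∑ p ∈ (Ioc ps y).filter (fun p => p.Prime ∧ ¬ p ∣ D) ∩ D.primeFactors,
      1 / (p : ℝ) := sum_nonneg fun p _ => by positivity
  linarith

/-- the product is at most the exponential of the sum -/
private theorem Pmk_prod (K ps y D : ℕ) (hK : K ≤ ps) :
    ∏ p ∈ (Ioc ps y).filter (fun p => p.Prime ∧ ¬ p ∣ D), (1 - (K : ℝ) / p) ≤
      Real.exp (-((K : ℝ) *
        ∑ p ∈ (Ioc ps y).filter (fun p => p.Prime ∧ ¬ p ∣ D), 1 / (p : ℝ))) := by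
  rw [mul_sum, ← sum_neg_distrib, Real.exp_sum]
  refine prod_le_prod (fun p hp => ?_) fun p hp => ?_
  · have hp1 := (mem_Ioc.1 (mem_filter.1 hp).1).1
    have hp2 : (K : ℝ) ≤ p := by exact_mod_cast (by omega : K ≤ p)
    have hp3 : (0 : ℝ) < p := by exact_mod_cast (by omega : 0 < p)
    have hp4 : (K : ℝ) / p ≤ 1 := by
      rw [div_le_one hp3]
      exact hp2
    linarith
  · have h := Real.add_one_le_exp (-((K : ℝ) * (1 / (p : ℝ))))
    have h' : (K : ℝ) / p = (K : ℝ) * (1 / (p : ℝ)) := by ring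
    rw [h']
    linarith

theorem pPmk (h1 : MrtStmt) (h2 : PdkStmt) : PmkStmt := by
  obtain ⟨C, hC, hM⟩ := h1
  obtain ⟨C', hC', hP⟩ := h2
  intro K ps hps2 hKps
  have hpsR : (2 : ℝ) ≤ ps := by exact_mod_cast hps2
  have hlps : 0 < Real.log ps := Real.log_pos (by linarith)
  refine ⟨(Real.exp (C / Real.log ps + C') * Real.log ps) ^ K, by positivity, fun y D hy hD => ?_⟩
  have hyR : (ps : ℝ) < y := by exact_mod_cast hy
  have hly : 0 < Real.log y := Real.log_pos (by linarith)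
  have hlD : 0 ≤ Real.log D := Real.log_natCast_nonneg D
  have hLD : 0 < Real.log (3 + Real.log D) := Real.log_pos (by linarith)
  refine (Pmk_prod K ps y D hKps).trans ?_
  have hM2 := (abs_le.1 (hM ps y hpsR hyR.le)).1
  rw [Nat.floor_natCast, Nat.floor_natCast] at hM2
  have hS := Pmk_split ps y D hD
  have hP2 := hP D hD
  rw [← mul_pow]
  set S : ℝ := ∑ p ∈ (Ioc ps y).filter (fun p => p.Prime ∧ ¬ p ∣ D), 1 / (p : ℝ) with hSdef
  have hlog : Real.log (Real.log y / Real.log ps) = Real.log (Real.log y) - Real.log (Real.log ps) :=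
    Real.log_div hly.ne' hlps.ne'
  have hkey : -S ≤ C / Real.log ps + C' + Real.log (Real.log ps) +
      Real.log (Real.log (3 + Real.log D)) - Real.log (Real.log y) := by
    rw [hlog] at hM2
    linarith
  have hexp : Real.exp (C / Real.log ps + C') * Real.log ps *
      (Real.log (3 + Real.log D) / Real.log y) =
      Real.exp (C / Real.log ps + C' + Real.log (Real.log ps) +
      Real.log (Real.log (3 + Real.log D)) - Real.log (Real.log y)) := by
    rw [Real.exp_sub, Real.exp_add _ (Real.log (Real.log (3 + Real.log D))),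
      Real.exp_add _ (Real.log (Real.log ps)), Real.exp_log hlps, Real.exp_log hLD,
      Real.exp_log hly]
    ring
  rw [hexp, ← Real.exp_nat_mul]
  apply Real.exp_le_exp.2
  have hK0 : (0 : ℝ) ≤ K := Nat.cast_nonneg K
  have := mul_le_mul_of_nonneg_left hkey hK0
  linarith

end Pool.Agent.Lib.MP_9f2731_nt.PL.Lb
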