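import Pool.Agent.Lib.MP_9f2731_nt.PL.Lb.Spec

namespace Pool.Agent.Lib.MP_9f2731_nt.PL.Lb

open Finset
open Pool.Agent.Lib.SG (MrtStmt GcrStmt GadStmt)

private lemma Rsk_pow_ne {k Q r p : ℕ} (hr : 2 ≤ r) (hp : p.Prime) (h : ¬ p ∣ Dk k Q r) (j : ℕ)
    (h1 : 1 ≤ j) (h2 : j ≤ k - 1) : ((r : ZMod p) ^ j) ≠ 1 := by
  intro h3
  apply h
  have h4 : p ∣ r ^ j - 1 := by
    rw [← ZMod.natCast_eq_zero_iff, Nat.cast_sub (Nat.one_le_pow _ _ (by omega))]
    push_cast
    rw [h3, sub_self]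
  exact (h4.trans (Finset.dvd_prod_of_mem (fun j => r ^ j - 1) (mem_Icc.mpr ⟨h1, h2⟩))).trans
    (dvd_mul_left _ _)

theorem pRsk : RskStmt := by
  intro k Q r p hr hp h
  haveI : Fact p.Prime := ⟨hp⟩
  have hQ : (Q : ZMod p) ≠ 0 := by
    intro h0
    rw [ZMod.natCast_eq_zero_iff] at h0
    exact h ((h0.trans (dvd_mul_right _ _)).trans (dvd_mul_right _ _))
  have hr0 : (r : ZMod p) ≠ 0 := by
    intro h0
    rw [ZMod.natCast_eq_zero_iff] at h0
    exact h ((h0.trans (dvd_mul_left _ _)).trans (dvd_mul_right _ _))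
  have hq : ∀ i : ℕ, (Q : ZMod p) * (r : ZMod p) ^ i ≠ 0 := fun i => mul_ne_zero hQ (pow_ne_zero _ hr0)
  let c : ℕ → ℕ := fun i => (-((Q : ZMod p) * (r : ZMod p) ^ i)⁻¹).val
  have hc : ∀ i, ((c i : ℕ) : ZMod p) = -((Q : ZMod p) * (r : ZMod p) ^ i)⁻¹ := fun i =>
    ZMod.natCast_zmod_val _
  have himg : rsk k Q r p = (range k).image c := by
    ext x
    simp only [rsk, mem_filter, mem_range, mem_image]
    constructor
    · rintro ⟨hx, i, hi, hd⟩
      refine ⟨i, hi, ?_⟩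
      rw [← ZMod.natCast_eq_zero_iff] at hd
      push_cast at hd
      have h1 : (x : ZMod p) = -((Q : ZMod p) * (r : ZMod p) ^ i)⁻¹ := by
        have h2 : ((Q : ZMod p) * (r : ZMod p) ^ i) * x = -1 := by
          rw [eq_neg_iff_add_eq_zero, ← hd]
          ring
        have h3 := hq i
        field_simp
        rw [← h2]
        ring
      have h4 : ((c i : ℕ) : ZMod p) = (x : ZMod p) := by rw [hc, h1]
      have h5 := congrArg ZMod.val h4
      rwa [ZMod.val_natCast_of_lt hx, ZMod.val_natCast_of_lt (ZMod.val_lt _)] at h5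
    · rintro ⟨i, hi, rfl⟩
      refine ⟨ZMod.val_lt _, i, hi, ?_⟩
      rw [← ZMod.natCast_eq_zero_iff]
      push_cast
      rw [hc]
      have h3 := hq i
      have h4 : (Q : ZMod p) * -((Q : ZMod p) * (r : ZMod p) ^ i)⁻¹ * (r : ZMod p) ^ i + 1 =
          -(((Q : ZMod p) * (r : ZMod p) ^ i) * ((Q : ZMod p) * (r : ZMod p) ^ i)⁻¹) + 1 := by ring
      rw [h4, mul_inv_cancel₀ h3]
      ring
  have key : ∀ i j : ℕ, i < j → j < k → c i ≠ c j := by
    intro i j hij hj hcc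
    have h1 : ((c i : ℕ) : ZMod p) = ((c j : ℕ) : ZMod p) := by rw [hcc]
    rw [hc, hc, neg_inj, inv_inj] at h1
    have h2 := mul_left_cancel₀ hQ h1
    obtain ⟨d, rfl⟩ := Nat.exists_eq_add_of_lt hij
    have h3 : (r : ZMod p) ^ i * 1 = (r : ZMod p) ^ i * (r : ZMod p) ^ (d + 1) := by
      rw [mul_one, ← pow_add, h2]
      congr 1
    have h4 := mul_left_cancel₀ (pow_ne_zero _ hr0) h3
    exact Rsk_pow_ne hr hp h (d + 1) (by omega) (by omega) h4.symm
  rw [himg, card_image_of_injOn, card_range]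
  intro i hi j hj hcc
  rw [coe_range, Set.mem_Iio] at hi hj
  rcases lt_trichotomy i j with h1 | h1 | h1
  · exact absurd hcc (key i j h1 hj)
  · exact h1
  · exact absurd hcc.symm (key j i h1 hi)

end Pool.Agent.Lib.MP_9f2731_nt.PL.Lb
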