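import Pool.Agent.Lib.MP_9f2731_nt.PL.Lb.Gbk
import Pool.Agent.Lib.MP_9f2731_nt.PL.Lb.Gsk
import Pool.Agent.Lib.MP_9f2731_nt.PL.Lb.Pdk
import Pool.Agent.Lib.MP_9f2731_nt.PL.Lb.Pmk
import Pool.Agent.Lib.MP_9f2731_nt.PL.Lb.Rsk
import Pool.Agent.Lib.MP_9f2731_nt.PL.Lb.Lba
import Pool.Agent.Lib.MP_9f2731_nt.PL.Lb.Lbk
import Pool.Agent.Lib.MP_9f2731_nt.PL.Lb.Lbp
import Pool.Agent.Lib.SG.Mrt
import Pool.Agent.Lib.SG.Gcr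
import Pool.Agent.Lib.SG.Gad

/-!
MP_9f2731_nt, THEOREM PL (helper9), chapter Lb: assembly of the upper bound.
-/

namespace Pool.Agent.Lib.MP_9f2731_nt.PL.Lb

open Pool.Agent.Lib.SG (tMrt tGcr tGad)

theorem lbAll : LbpStmt :=
  pLbp (pLbk (pGsk tGcr tGad (pGbk tMrt)) (pPmk tMrt (pPdk tMrt)) pRsk pLba)

end Pool.Agent.Lib.MP_9f2731_nt.PL.Lb
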