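import Pool.Agent.Lib.MP_9f2731_nt.PL.Lb.Spec

/-!
MP_9f2731_nt, directory PL, chapter Lb, module Gbk: the blocks of the sieve for general K.
-/

namespace Pool.Agent.Lib.MP_9f2731_nt.PL.Lb

open Finset
open Pool.Agent.Lib.SG (MrtStmt GcrStmt GadStmt)

/-- the logarithm of the upper end of block i -/
private noncomputable def Gbk_L (K y i : ℕ) : ℝ := Real.exp (-((i : ℝ) / (2 * K))) * Real.log y

private lemma Gbk_L_nonneg (K y i : ℕ) (hy : 1 ≤ y) : 0 ≤ Gbk_L K y i := by
  have h : 0 ≤ Real.log (y : ℝ) := Real.log_nonneg (by exact_mod_cast hy)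
  unfold Gbk_L
  positivity

private lemma Gbk_block (K ps y p i : ℕ) (hK : 1 ≤ K) (hps : 16 ≤ ps) (hp : ps < p) (hpy : p ≤ y)
    (h : rbk K y p = i) : Gbk_L K y (i + 1) < Real.log p ∧ Real.log p ≤ Gbk_L K y i := by
  have hK1 : (1 : ℝ) ≤ K := by exact_mod_cast hK
  have hK2 : (0 : ℝ) < 2 * K := by linarith
  have hp1 : (1 : ℝ) < p := by exact_mod_cast (by omega : 1 < p)
  have hy1 : (1 : ℝ) < y := by exact_mod_cast (by omega : 1 < y)
  have hlp : 0 < Real.log p := Real.log_pos hp1
  have hly : 0 < Real.log y := Real.log_pos hy1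
  have hle : Real.log p ≤ Real.log y := Real.log_le_log (by linarith) (by exact_mod_cast hpy)
  have hr1 : 1 ≤ Real.log y / Real.log p := by
    rw [le_div_iff₀ hlp]
    linarith
  have hr0 : 0 < Real.log y / Real.log p := by linarith
  have hv : 0 ≤ 2 * (K : ℝ) * Real.log (Real.log y / Real.log p) := by
    have := Real.log_nonneg hr1
    positivity
  unfold rbk at h
  rw [Nat.floor_eq_iff hv] at h
  obtain ⟨h1, h2⟩ := h
  constructor
  · have h3 : Real.log (Real.log y / Real.log p) < ((i : ℝ) + 1) / (2 * K) := by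
      rw [lt_div_iff₀ hK2]
      linarith
    rw [Real.log_lt_iff_lt_exp hr0, div_lt_iff₀ hlp] at h3
    unfold Gbk_L
    push_cast
    rw [Real.exp_neg, inv_mul_lt_iff₀ (Real.exp_pos _)]
    exact h3
  · have h3 : (i : ℝ) / (2 * K) ≤ Real.log (Real.log y / Real.log p) := by
      rw [div_le_iff₀ hK2]
      linarith
    rw [Real.le_log_iff_exp_le hr0, le_div_iff₀ hlp] at h3
    unfold Gbk_L
    rw [Real.exp_neg, le_inv_mul_iff₀ (Real.exp_pos _)]
    exact h3

private lemma Gbk_geom (K : ℕ) (hK : 1 ≤ K) (t : ℕ) :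
    ∑ i ∈ range t, 2 * (2 * (i : ℝ) + 7) * Real.exp (-((i : ℝ) / (2 * K))) ≤
      (14 + 16 * K) / (1 - Real.exp (-(1 / (4 * (K : ℝ))))) := by
  have hK1 : (1 : ℝ) ≤ K := by exact_mod_cast hK
  have hK4 : (0 : ℝ) < 4 * K := by linarith
  have hA : (0 : ℝ) < 14 + 16 * K := by linarith
  set r : ℝ := Real.exp (-(1 / (4 * (K : ℝ)))) with hr
  have hr0 : 0 < r := Real.exp_pos _
  have hr1 : r < 1 := by
    rw [hr, Real.exp_lt_one_iff, neg_lt_zero]
    positivity
  have h1 : ∀ i ∈ range t, 2 * (2 * (i : ℝ) + 7) * Real.exp (-((i : ℝ) / (2 * K))) ≤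
      (14 + 16 * K) * r ^ i := by
    intro i _
    have hi : (0 : ℝ) ≤ i := Nat.cast_nonneg i
    have h2 : (i : ℝ) / (4 * K) + 1 ≤ Real.exp ((i : ℝ) / (4 * K)) := Real.add_one_le_exp _
    have h3 : 2 * (2 * (i : ℝ) + 7) ≤ (14 + 16 * K) * Real.exp ((i : ℝ) / (4 * K)) := by
      have h31 : (14 + 16 * (K : ℝ)) * ((i : ℝ) / (4 * K) + 1) ≤
          (14 + 16 * K) * Real.exp ((i : ℝ) / (4 * K)) := mul_le_mul_of_nonneg_left h2 hA.le
      have h32 : (14 + 16 * (K : ℝ)) * ((i : ℝ) / (4 * K) + 1) =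
          14 * ((i : ℝ) / (4 * K)) + 4 * i + 14 + 16 * K := by
        field_simp
        ring
      have h33 : 0 ≤ 14 * ((i : ℝ) / (4 * K)) := by positivity
      linarith
    have h4 : Real.exp ((i : ℝ) / (4 * K)) * Real.exp (-((i : ℝ) / (2 * K))) = r ^ i := by
      rw [hr, ← Real.exp_add, ← Real.exp_nat_mul]
      congr 1
      field_simp
      ring
    calc 2 * (2 * (i : ℝ) + 7) * Real.exp (-((i : ℝ) / (2 * K))) ≤
        (14 + 16 * K) * Real.exp ((i : ℝ) / (4 * K)) * Real.exp (-((i : ℝ) / (2 * K))) :=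
          mul_le_mul_of_nonneg_right h3 (Real.exp_pos _).le
      _ = (14 + 16 * K) * r ^ i := by rw [mul_assoc, h4]
  refine (Finset.sum_le_sum h1).trans ?_
  rw [← Finset.mul_sum, div_eq_mul_one_div (14 + 16 * (K : ℝ))]
  apply mul_le_mul_of_nonneg_left _ hA.le
  rw [geom_sum_eq hr1.ne, ← neg_sub, ← neg_sub (1 : ℝ) r, neg_div_neg_eq]
  apply div_le_div_of_nonneg_right _ (by linarith)
  have : 0 < r ^ t := by positivity
  linarith

theorem pGbk (h1 : MrtStmt) : GbkStmt := by
  intro K hK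
  obtain ⟨C, hC, hM⟩ := h1
  have hK1 : (1 : ℝ) ≤ K := by exact_mod_cast hK
  have hK0 : (0 : ℝ) < K := by linarith
  set ps : ℕ := max (max 16 (4 * K)) ⌈Real.exp (2 * K * C)⌉₊ with hps_def
  set r : ℝ := Real.exp (-(1 / (4 * (K : ℝ)))) with hr
  set E : ℕ := ⌈(14 + 16 * (K : ℝ)) / (1 - r)⌉₊ + 1 with hE
  have hps16 : 16 ≤ ps := (le_max_left _ _).trans (le_max_left _ _)
  have hps4K : 4 * K ≤ ps := (le_max_right _ _).trans (le_max_left _ _)
  have hpsR : (16 : ℝ) ≤ ps := by exact_mod_cast hps16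
  have hpsK : 4 * (K : ℝ) ≤ ps := by exact_mod_cast hps4K
  have hlps : 2 * K * C ≤ Real.log ps := by
    rw [Real.le_log_iff_exp_le (by linarith)]
    calc Real.exp (2 * K * C) ≤ (⌈Real.exp (2 * K * C)⌉₊ : ℝ) := Nat.le_ceil _
      _ ≤ (ps : ℝ) := Nat.cast_le.2 (le_max_right _ _)
  have hlps1 : 1 ≤ Real.log ps := by
    rw [Real.le_log_iff_exp_le (by linarith)]
    have := Real.exp_one_lt_d9
    linarith
  have hEr : (14 + 16 * (K : ℝ)) / (1 - r) ≤ (E : ℝ) := by
    have h2 := Nat.le_ceil ((14 + 16 * (K : ℝ)) / (1 - r))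
    rw [hE]
    push_cast
    linarith
  refine ⟨ps, E, hps16, hps4K, by omega, fun y hy => ?_⟩
  have hyR : (ps : ℝ) < y := by exact_mod_cast hy
  have hlps0 : 0 < Real.log ps := by linarith
  have hlpy : Real.log ps ≤ Real.log y := Real.log_le_log (by linarith) hyR.le
  have hly : 0 < Real.log y := by linarith
  have hR1 : 1 ≤ Real.log y / Real.log ps := by
    rw [le_div_iff₀ hlps0]
    linarith
  have hexp : ∀ t : ℕ, Real.exp (∑ i ∈ range t, 2 * (2 * (i : ℝ) + 7) * Gbk_L K y i) ≤
      (y : ℝ) ^ E := by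
    intro t
    have h2 : ∑ i ∈ range t, 2 * (2 * (i : ℝ) + 7) * Gbk_L K y i =
        (∑ i ∈ range t, 2 * (2 * (i : ℝ) + 7) * Real.exp (-((i : ℝ) / (2 * K)))) *
          Real.log y := by
      rw [Finset.sum_mul]
      refine Finset.sum_congr rfl fun i _ => ?_
      unfold Gbk_L
      ring
    have h3 : (y : ℝ) ^ E = Real.exp ((E : ℝ) * Real.log y) := by
      rw [← Real.log_pow, Real.exp_log (pow_pos (by linarith) E)]
    rw [h2, h3]
    apply Real.exp_le_exp.2
    exact mul_le_mul_of_nonneg_right ((Gbk_geom K hK t).trans hEr) hly.le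
  refine ⟨⌊2 * (K : ℝ) * Real.log (Real.log y / Real.log ps)⌋₊ + 1, ?_, ?_, ?_⟩
  · intro p hp hpy
    have hpR : (ps : ℝ) < p := by exact_mod_cast hp
    have hlp : Real.log ps ≤ Real.log p := Real.log_le_log (by linarith) hpR.le
    have h2 : rbk K y p ≤ ⌊2 * (K : ℝ) * Real.log (Real.log y / Real.log ps)⌋₊ := by
      unfold rbk
      apply Nat.floor_le_floor
      apply mul_le_mul_of_nonneg_left _ (by positivity)
      apply Real.log_le_log
      · have : 0 < Real.log p := by linarith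
        positivity
      · exact div_le_div_of_nonneg_left hly.le hlps0 hlp
    omega
  · intro i
    set S := (Ioc ps y).filter (fun p => p.Prime ∧ rbk K y p = i) with hS
    by_cases hne : S = ∅
    · rw [hne]
      simp
    · obtain ⟨p0, hp0⟩ := Finset.nonempty_of_ne_empty hne
      rw [hS, Finset.mem_filter, Finset.mem_Ioc] at hp0
      have hb0 := Gbk_block K ps y p0 i hK hps16 hp0.1.1 hp0.1.2 hp0.2.2
      have hLi : Real.log ps < Gbk_L K y i := by
        have h3 : Real.log ps < Real.log p0 :=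
          Real.log_lt_log (by linarith) (by exact_mod_cast hp0.1.1)
        linarith [hb0.2]
      set lx : ℝ := max (Gbk_L K y (i + 1)) (Real.log ps) with hlx
      have hlx1 : 1 ≤ lx := hlps1.trans (le_max_right _ _)
      have hLstep : Gbk_L K y i = Real.exp (1 / (2 * K)) * Gbk_L K y (i + 1) := by
        unfold Gbk_L
        rw [← mul_assoc, ← Real.exp_add]
        congr 2
        push_cast
        ring
      have hLlt : Gbk_L K y (i + 1) < Gbk_L K y i := lt_of_lt_of_le hb0.1 hb0.2
      have hlxLi : lx ≤ Gbk_L K y i := max_le hLlt.le hLi.le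
      have hx2 : (2 : ℝ) ≤ Real.exp lx := by
        have h4 := Real.add_one_le_exp lx
        linarith
      have hxy : Real.exp lx ≤ Real.exp (Gbk_L K y i) := Real.exp_le_exp.2 hlxLi
      have h5 := hM (Real.exp lx) (Real.exp (Gbk_L K y i)) hx2 hxy
      rw [Real.log_exp, Real.log_exp] at h5
      have h6 : Real.log (Gbk_L K y i / lx) ≤ 1 / (2 * K) := by
        rw [Real.log_le_iff_le_exp (by
          have : 0 < Gbk_L K y i := by linarith
          positivity)]
        rw [div_le_iff₀ (by linarith), hLstep]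
        exact mul_le_mul_of_nonneg_left (le_max_left _ _) (Real.exp_pos _).le
      have h7 : C / lx ≤ 1 / (2 * K) := by
        rw [div_le_div_iff₀ (by linarith) (by positivity)]
        have : Real.log ps ≤ lx := le_max_right _ _
        linarith
      have hKK : 1 / (2 * (K : ℝ)) + 1 / (2 * K) = 1 / K := by
        field_simp
        norm_num
      have h8 : ∑ p ∈ (Ioc ⌊Real.exp lx⌋₊ ⌊Real.exp (Gbk_L K y i)⌋₊).filter Nat.Prime,
          1 / (p : ℝ) ≤ 1 / K := by
        have := (abs_le.1 h5).2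
        linarith
      have h9 : S ⊆ (Ioc ⌊Real.exp lx⌋₊ ⌊Real.exp (Gbk_L K y i)⌋₊).filter Nat.Prime := by
        intro p hp
        rw [hS, Finset.mem_filter, Finset.mem_Ioc] at hp
        have hb := Gbk_block K ps y p i hK hps16 hp.1.1 hp.1.2 hp.2.2
        have hp0' : (0 : ℝ) < p := by exact_mod_cast hp.2.1.pos
        rw [Finset.mem_filter, Finset.mem_Ioc]
        refine ⟨⟨?_, ?_⟩, hp.2.1⟩
        · rw [Nat.floor_lt (Real.exp_pos _).le, ← Real.lt_log_iff_exp_lt hp0']
          apply max_lt hb.1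
          exact Real.log_lt_log (by linarith) (by exact_mod_cast hp.1.1)
        · apply Nat.le_floor
          rw [← Real.log_le_iff_le_exp hp0']
          exact hb.2
      have h10 : ∑ p ∈ S, 1 / (p : ℝ) ≤ 1 / K :=
        (Finset.sum_le_sum_of_subset_of_nonneg h9 (fun p _ _ => by positivity)).trans h8
      have h11 : ∑ p ∈ S, (K : ℝ) / (p : ℝ) = K * ∑ p ∈ S, 1 / (p : ℝ) := by
        rw [Finset.mul_sum]
        refine Finset.sum_congr rfl fun p _ => ?_
        ring
      rw [h11]
      calc (K : ℝ) * ∑ p ∈ S, 1 / (p : ℝ) ≤ K * (1 / K) :=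
            mul_le_mul_of_nonneg_left h10 hK0.le
        _ = 1 := mul_one_div_cancel hK0.ne'
  · refine le_trans ?_ (hexp (⌊2 * (K : ℝ) * Real.log (Real.log y / Real.log ps)⌋₊ + 1))
    rw [Real.exp_sum]
    apply Finset.prod_le_prod
    · intro i _
      positivity
    · intro i _
      set S := (Ioc ps y).filter (fun p => rbk K y p = i) with hS
      have hLn : 0 ≤ Gbk_L K y i := Gbk_L_nonneg K y i (by omega)
      by_cases hne : S = ∅
      · rw [hne]
        simp only [Finset.card_empty, Nat.cast_zero, mul_zero, add_zero, one_pow]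
        exact Real.one_le_exp (by positivity)
      · obtain ⟨p0, hp0⟩ := Finset.nonempty_of_ne_empty hne
        rw [hS, Finset.mem_filter, Finset.mem_Ioc] at hp0
        have hb0 := Gbk_block K ps y p0 i hK hps16 hp0.1.1 hp0.1.2 hp0.2
        set Y : ℝ := Real.exp (Gbk_L K y i) with hY
        have hp0R : (0 : ℝ) < p0 := by exact_mod_cast (by omega : 0 < p0)
        have hYps : (ps : ℝ) ≤ Y := by
          have h3 : (p0 : ℝ) ≤ Y := by
            rw [hY, ← Real.log_le_iff_le_exp hp0R]
            exact hb0.2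
          have h4 : (ps : ℝ) < p0 := by exact_mod_cast hp0.1.1
          linarith
        have hcard : (S.card : ℝ) ≤ Y := by
          have h3 : S ⊆ Icc 1 ⌊Y⌋₊ := by
            intro p hp
            rw [hS, Finset.mem_filter, Finset.mem_Ioc] at hp
            have hb := Gbk_block K ps y p i hK hps16 hp.1.1 hp.1.2 hp.2
            have hp0' : (0 : ℝ) < p := by exact_mod_cast (by omega : 0 < p)
            rw [Finset.mem_Icc]
            refine ⟨by omega, Nat.le_floor ?_⟩
            rw [hY, ← Real.log_le_iff_le_exp hp0']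
            exact hb.2
          have h4 := Finset.card_le_card h3
          rw [Nat.card_Icc, Nat.add_sub_cancel] at h4
          calc (S.card : ℝ) ≤ (⌊Y⌋₊ : ℝ) := by exact_mod_cast h4
            _ ≤ Y := Nat.floor_le (by linarith)
        have h5 : 1 + (K : ℝ) * (S.card : ℝ) ≤ Y ^ 2 := by
          have h51 : (K : ℝ) * (S.card : ℝ) ≤ (Y / 4) * Y :=
            mul_le_mul (by linarith) hcard (Nat.cast_nonneg _) (by linarith)
          nlinarith
        calc (1 + (K : ℝ) * (S.card : ℝ)) ^ (2 * (i + 3) + 1) ≤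
              (Y ^ 2) ^ (2 * (i + 3) + 1) := pow_le_pow_left₀ (by positivity) h5 _
          _ = Real.exp (2 * (2 * (i : ℝ) + 7) * Gbk_L K y i) := by
              rw [← pow_mul, hY, ← Real.exp_nat_mul]
              congr 1
              push_cast
              ring

end Pool.Agent.Lib.MP_9f2731_nt.PL.Lb
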