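import Pool.Agent.Lib.MP_9f2731_nt.PL.Defs
import Pool.Agent.Lib.SG.SpecB

/-!
MP_9f2731_nt, directory PL, chapter Lb (architect helper9): the ratio must be at least (log X)^(k-1-ε) for almost all
primes Q b + 1, by the upper bound sieve (Brun-Hooley) with k forms.

RULES. Module Xyz: file Pool/Agent/Lib/MP_9f2731_nt/PL/Lb/Xyz.lean, first line
`import Pool.Agent.Lib.MP_9f2731_nt.PL.Lb.Spec`, then `namespace Pool.Agent.Lib.MP_9f2731_nt.PL.Lb`, `open Finset`,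
private lemmas with names starting with Xyz_, final theorem `theorem pXyz (h1 : AStmt) ... : XyzStmt`; the statements
listed under Uses are hypotheses of your theorem, in this order. MrtStmt, GcrStmt, GadStmt are those of
Lib/SG (namespace Pool.Agent.Lib.SG; they are opened here).
-/

namespace Pool.Agent.Lib.MP_9f2731_nt.PL.Lb

open Finset
open Pool.Agent.Lib.SG (MrtStmt GcrStmt GadStmt)

/-- the number of the block of p: i with y^(exp (-(i+1)/(2K))) < p ≤ y^(exp (-i/(2K))) -/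
noncomputable def rbk (K y p : ℕ) : ℕ := ⌊2 * (K : ℝ) * Real.log (Real.log y / Real.log p)⌋₊

/-- Module Gbk (theorem pGbk; the blocks, general K). Uses: MrtStmt.
MODEL: Pool/Agent/Lib/SG/Gbl.lean (this is the case K = 4 there: copy it, with 8 replaced by 2 K, 1/8 by 1/(2K), 4 by K; the
parts (1) and (4) of GblStmt are not needed).
Proof. θ = exp (-1/(2K)), x_i = y^(θ^i). Block i: x_{i+1} < p ≤ x_i. Take ps ≥ max 16 (4 K) with log ps ≥ max 1 (2 K C).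
(2) the sum of 1/p over the primes of the block is ≤ 1/(2K) + C/log ps ≤ 1/K.
(3) 1 + K x_i ≤ x_i^2 if the block is not empty (x_i > ps ≥ K + 1), so the factor is ≤ exp (2 (2i+7) θ^i log y), and
∑ 2 (2i+7) θ^i ≤ E (r = exp (-1/(4K)), 2 (2i+7) ≤ A exp (i/(4K)) with A = 14 + 16 K, and a geometric series). -/
def GbkStmt : Prop :=
  ∀ K : ℕ, 1 ≤ K → ∃ ps E : ℕ, 16 ≤ ps ∧ 4 * K ≤ ps ∧ 1 ≤ E ∧ ∀ y : ℕ, ps < y → ∃ t : ℕ,
    (∀ p : ℕ, ps < p → p ≤ y → rbk K y p < t) ∧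
    (∀ i : ℕ, ∑ p ∈ (Ioc ps y).filter (fun p => p.Prime ∧ rbk K y p = i), (K : ℝ) / (p : ℝ) ≤ 1) ∧
    ∏ i ∈ range t, (1 + (K : ℝ) * (((Ioc ps y).filter (fun p => rbk K y p = i)).card : ℝ)) ^ (2 * (i + 3) + 1) ≤
      (y : ℝ) ^ E

/-- Module Gsk (theorem pGsk; the upper bound sieve, general K). Uses: GcrStmt, GadStmt, GbkStmt.
MODEL: Pool/Agent/Lib/SG/Gsv.lean (this is the case K = 4 there: copy it, with 4 replaced by K and rb by rbk K). -/
def GskStmt : Prop :=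
  ∀ K : ℕ, 1 ≤ K → ∃ (C : ℝ) (ps E : ℕ), 1 ≤ C ∧ 16 ≤ ps ∧ 4 * K ≤ ps ∧ 1 ≤ E ∧
    ∀ (y : ℕ) (T : Finset ℕ) (R : ℕ → Finset ℕ) (N N2 : ℕ), N ≤ N2 →
    (∀ p ∈ T, p.Prime ∧ ps < p ∧ p ≤ y ∧ R p ⊆ range p ∧ (R p).card ≤ K) →
    (((Ioc N N2).filter (fun n => ∀ p ∈ T, n % p ∉ R p)).card : ℝ) ≤
      C * (((N2 : ℝ) - N) * ∏ p ∈ T, (1 - ((R p).card : ℝ) / p)) + (y : ℝ) ^ E

/-- Module Pdk (theorem pPdk; the prime divisors of D). Uses: MrtStmt.
Proof. z = 3 + log D ≥ 3. The prime divisors p ≤ z: 2 contributes 1/2, and by Mrt with x = 2, y = z the others contribute at most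
log (log z/log 2) + C/log 2 ≤ log log z + 1 + 2 C (log 2 ≥ 1/2 and log log 2 ≥ -1). The prime divisors > z: their number is ≤ log D/log 2 ≤ 2 log D
(2^(number of the prime factors) ≤ D: Nat.prod_primeFactors_dvd and Finset.prod_le_prod' or Finset.pow_card_le_prod), each contributes ≤ 1/z,
together ≤ 2 log D/z ≤ 2. -/
def PdkStmt : Prop :=
  ∃ C : ℝ, 0 ≤ C ∧ ∀ D : ℕ, 1 ≤ D →
    ∑ p ∈ D.primeFactors, 1 / (p : ℝ) ≤ Real.log (Real.log (3 + Real.log D)) + C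

/-- Module Pmk (theorem pPmk; the sieve product). Uses: MrtStmt, PdkStmt.
Proof. 0 ≤ 1 - K/p ≤ exp (-K/p) (p > ps ≥ K), so the product is ≤ exp (-K S), S = the sum of 1/p over the primes of (ps, y] which do not divide D
≥ (the sum over all primes of (ps, y]) - (the sum over D.primeFactors) ≥ log (log y/log ps) - C/log ps - log log (3 + log D) - C'. And
exp (-K S) ≤ (exp (C/log ps + C') log ps)^K (log (3 + log D)/log y)^K (D ≥ 1, so log (3 + log D) ≥ log 3 > 1). -/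
def PmkStmt : Prop :=
  ∀ K ps : ℕ, 2 ≤ ps → K ≤ ps → ∃ C : ℝ, 0 < C ∧ ∀ y D : ℕ, ps < y → 1 ≤ D →
    ∏ p ∈ (Ioc ps y).filter (fun p => p.Prime ∧ ¬ p ∣ D), (1 - (K : ℝ) / p) ≤
      C * (Real.log (3 + Real.log D) / Real.log y) ^ K

/-- the residues c with p | Q c r^i + 1 for some i < k -/
def rsk (k Q r p : ℕ) : Finset ℕ := (range p).filter (fun c => ∃ i ∈ range k, p ∣ Q * c * r ^ i + 1)

/-- the exceptional number -/
def Dk (k Q r : ℕ) : ℕ := Q * r * ∏ j ∈ Icc 1 (k - 1), (r ^ j - 1)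

/-- Module Rsk (theorem pRsk; the number of the residues). Uses: nothing.
Proof. p does not divide Q, r and r^j - 1 for 1 ≤ j ≤ k - 1. For i < k let c_i < p be the residue with Q r^i c_i ≡ -1 mod p (Q r^i is invertible mod p;
work in ZMod p with Fact p.Prime: c_i = (-(Q r^i : ZMod p)⁻¹).val). rsk is the image of range k under i ↦ c_i, and this map is injective: c_i = c_j with i < j gives
Q r^i c ≡ Q r^j c, c is invertible mod p, so r^(j-i) = 1 in ZMod p and p | r^(j-i) - 1, 1 ≤ j - i ≤ k - 1, a contradiction. -/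
def RskStmt : Prop :=
  ∀ k Q r p : ℕ, 2 ≤ r → p.Prime → ¬ p ∣ Dk k Q r → (rsk k Q r p).card = k

/-- Module Lba (theorem pLba; the asymptotic estimates). Uses: nothing.
Proof. L = log log X, l ≤ (2 + k^2) L^10, so log (3 + l) ≤ 12 log L for X large. y ≥ X^(1/(2E)) - 1 ≥ X^(1/(4E)), so log y ≥ log X/(4E) and ps < y for
X large; y^E ≤ X^(1/2), y ≤ X^(1/2). So the left side is ≤ C (48 E)^k X (log L)^k/(log X)^k + 2 X^(1/2) ≤ X L/(log X)^k for X large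
((log L)^k = o(L), and (log X)^k = o(X^(1/2))). -/
def LbaStmt : Prop :=
  ∀ (k ps E : ℕ) (C : ℝ), 1 ≤ E → 0 < C → ∃ X0 : ℝ, 16 ≤ X0 ∧ ∀ (X : ℕ) (l : ℝ), X0 ≤ X → 0 ≤ l →
    l ≤ (2 + (k : ℝ) ^ 2) * (Real.log (Real.log X)) ^ 10 →
    ps < ⌊(X : ℝ) ^ ((1 : ℝ) / (2 * E))⌋₊ ∧
    C * (X * (Real.log (3 + l) / Real.log ((⌊(X : ℝ) ^ ((1 : ℝ) / (2 * E))⌋₊ : ℕ) : ℝ)) ^ k) +
        ((⌊(X : ℝ) ^ ((1 : ℝ) / (2 * E))⌋₊ : ℕ) : ℝ) ^ E + ((⌊(X : ℝ) ^ ((1 : ℝ) / (2 * E))⌋₊ : ℕ) : ℝ) ≤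
      X * Real.log (Real.log X) / (Real.log X) ^ k

open Classical in
/-- Module Lbk (theorem pLbk; one ratio). Uses: GskStmt, PmkStmt, RskStmt, LbaStmt.
Proof. C1, ps, E from Gsk (K = k), C2 from Pmk (K = k, ps), X0 from Lba (constant C1 C2). y = ⌊X^(1/(2E))⌋, D = Dk k Q r ≥ 1,
log D ≤ log Q + log r + ∑_{j<k} j log r ≤ (2 + k^2) L^10. T = the primes of (ps, y] which do not divide D, R = rsk k Q r. Let b be counted and b > y: for p ∈ T we have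
b % p ∉ R p, otherwise p | Q (b % p) r^i + 1, so p | Q b r^i + 1, which is a prime > b > y ≥ p. So by Gsk with N = 0, N2 = X (Icc 1 X = Ioc 0 X) the number of the b is
≤ y + C1 X ∏_T (1 - k/p) + y^E (card (R p) = k by Rsk), and ∏_T (1 - k/p) ≤ C2 (log (3 + log D)/log y)^k by Pmk. Lba with l = log D. -/
def LbkStmt : Prop :=
  ∀ k : ℕ, 1 ≤ k → ∃ X0 : ℝ, ∀ X Q r : ℕ, X0 ≤ X → 1 ≤ Q → 2 ≤ r →
    Real.log Q ≤ (Real.log (Real.log X)) ^ 10 → Real.log r ≤ (Real.log (Real.log X)) ^ 10 →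
    (((Icc 1 X).filter (fun b => ∀ i : ℕ, i < k → (Q * b * r ^ i + 1).Prime)).card : ℝ) ≤
      X * Real.log (Real.log X) / (Real.log X) ^ k

open Classical in
/-- Module Lbp (theorem pLbp; all ratios). Uses: LbkStmt.
Proof. L = log log X ≥ 1. If k ≤ 1 then (log X)^(k-1-ε) ≤ 1 < 2 and the set is empty. k ≥ 2: r ≤ (log X)^(k-1-ε) gives log r ≤ k L ≤ L^10 for X large. By Lbk and the union
bound over the at most (log X)^(k-1-ε) numbers r (if the exponent is negative there is none) the number is ≤ (log X)^(k-1-ε) X L/(log X)^k =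
(X/log X) L (log X)^(-ε) ≤ η X/log X for X large. -/
def LbpStmt : Prop :=
  ∀ (k : ℕ) (ε η : ℝ), 0 < ε → 0 < η → ∃ X0 : ℝ, ∀ X Q : ℕ, X0 ≤ X → 1 ≤ Q →
    Real.log Q ≤ (Real.log (Real.log X)) ^ 10 →
    (((Icc 1 X).filter (fun b => ∃ r : ℕ, 2 ≤ r ∧ (r : ℝ) ≤ (Real.log X) ^ ((k : ℝ) - 1 - ε) ∧
      ∀ i : ℕ, i < k → (Q * b * r ^ i + 1).Prime)).card : ℝ) ≤ η * (X / Real.log X)

end Pool.Agent.Lib.MP_9f2731_nt.PL.Lb
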